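import Pool.Agent.Y920.JB.Stm3

/-! # From an open subgroup to the group -/

set_option autoImplicit false

open Topology Filter MeasureTheory Pool.Agent.Y920.JB

namespace Pool.Agent.Y74.JB

theorem t_COS1 : S_COS1 := by
  intro G _ _ _ _ _ _ K hK hD
  obtain ⟨B, hB, hM, hN⟩ := hD
  let r : G → G := fun x => Quotient.out (QuotientAddGroup.mk x : G ⧸ K)
  have hr1 : ∀ x, x - r x ∈ K := by
    intro x
    have h1 : (QuotientAddGroup.mk (r x) : G ⧸ K) = QuotientAddGroup.mk x :=
      QuotientAddGroup.out_eq' _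
    have h2 := QuotientAddGroup.eq.1 h1
    have h3 : x - r x = - r x + x := by abel
    rw [h3]
    exact h2
  have hdisc : DiscreteTopology (G ⧸ K) := QuotientAddGroup.discreteTopology hK
  have hrc : Continuous r :=
    (continuous_of_discreteTopology (f := fun q : G ⧸ K => Quotient.out q)).comp
      QuotientAddGroup.continuous_mk
  let φ : G → K := fun x => ⟨x - r x, hr1 x⟩
  have hφ : Continuous φ := (continuous_id.sub hrc).subtype_mk _
  have hφm : Measurable φ := hφ.measurable
  have hadd : ∀ (k : K) (g : G), φ ((k : G) + g) = k + φ g := by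
    intro k g
    have h1 : (QuotientAddGroup.mk ((k : G) + g) : G ⧸ K) = QuotientAddGroup.mk g := by
      rw [QuotientAddGroup.eq]
      have : -((k : G) + g) + g = -(k : G) := by abel
      rw [this]
      exact K.neg_mem k.2
    have h2 : r ((k : G) + g) = r g := by
      show Quotient.out (QuotientAddGroup.mk ((k : G) + g) : G ⧸ K) = _
      rw [h1]
    apply Subtype.ext
    show (k : G) + g - r ((k : G) + g) = (k : G) + (g - r g)
    rw [h2]
    abel
  refine ⟨φ ⁻¹' B, hB.preimage hφ, ?_, ?_⟩
  · obtain ⟨C, hC, hBC, L, tL, hL1, hL2, hL3, f, hf, hfm⟩ := hM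
    refine ⟨φ ⁻¹' C, hC.preimage hφm, fun x hx => hBC hx, L, tL, hL1, hL2, hL3,
      fun t => (f t : G), continuous_subtype_val.comp hf, ?_⟩
    intro g
    have h1 := hfm (φ g)
    have h2 : (fun t => (f t : G)) ⁻¹' ((fun x => x + g) ⁻¹' (φ ⁻¹' C)) =
        f ⁻¹' ((fun x => x + φ g) ⁻¹' C) := by
      ext t
      simp only [Set.mem_preimage]
      rw [hadd]
    rw [h2]
    exact h1
  · obtain ⟨C, hC, hBC, μ, hμ, hμ0⟩ := hN
    have hmap : IsProbabilityMeasure (μ.map (Subtype.val : K → G)) :=
      Measure.isProbabilityMeasure_map measurable_subtype_coe.aemeasurable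
    refine ⟨φ ⁻¹' C, hC.preimage hφm, fun x hx => hBC hx, μ.map (Subtype.val : K → G), hmap, ?_⟩
    intro g
    have hmeas : MeasurableSet ((fun x : G => x + g) ⁻¹' (φ ⁻¹' C)) :=
      (hC.preimage hφm).preimage (continuous_id.add continuous_const).measurable
    rw [Measure.map_apply measurable_subtype_coe hmeas]
    have h2 : (Subtype.val : K → G) ⁻¹' ((fun x => x + g) ⁻¹' (φ ⁻¹' C)) =
        (fun x => x + φ g) ⁻¹' C := by
      ext t
      simp only [Set.mem_preimage]
      rw [hadd]
    rw [h2]
    exact hμ0 _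

end Pool.Agent.Y74.JB
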